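import Pool.Agent.Q87.Cox.Parabolic

set_option autoImplicit false

namespace Pool.Agent.Results.MP_330ad9_al.BPLattice

open CoxeterSystem Pool.Agent.Q87.Cox

universe u v

variable {B : Type u} {W : Type v} [Group W] {M : CoxeterMatrix B} (cs : CoxeterSystem M W)

/-- The support of `v`: the simple reflections occurring in some reduced word for `v`. -/
def supp (v : W) : Set W :=
  {s | ∃ ω : List B, cs.IsReduced ω ∧ cs.wordProd ω = v ∧ ∃ i ∈ ω, cs.simple i = s}

/-- The left descent set. -/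
def leftDesc (v : W) : Set W :=
  {s | s ∈ Set.range cs.simple ∧ cs.length (s * v) < cs.length v}

/-- `u` is a minimal-length left coset representative for `J`: `ℓ(us) > ℓ(u)` for `s ∈ J`. -/
def IsMinRep (J : Set W) (u : W) : Prop := ∀ s ∈ J, cs.length u < cs.length (u * s)

/-- `(u, v)` is the parabolic factorisation `w = w^J w_J`. -/
def IsFact (J : Set W) (w u v : W) : Prop :=
  IsMinRep cs J u ∧ v ∈ Subgroup.closure J ∧ u * v = w

/-- `J ∈ BP(w)`: `J` is a set of simple reflections and `supp(w^J) ∩ J ⊆ D_L(w_J)`. -/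
def IsBP (w : W) (J : Set W) : Prop :=
  J ⊆ Set.range cs.simple ∧ ∃ u v : W, IsFact cs J w u v ∧ supp cs u ∩ J ⊆ leftDesc cs v

/-- The factorisation exists, is unique, and is length-additive. -/
theorem existsUnique_fact {J : Set W} (hJ : J ⊆ Set.range cs.simple) (w : W) :
    (∃! p : W × W, IsFact cs J w p.1 p.2) ∧
      ∀ u v : W, IsFact cs J w u v → cs.length w = cs.length u + cs.length v := by
  constructor
  · obtain ⟨u, v, hu, hv, hp⟩ := exists_fact (cs := cs) hJ w
    refine ⟨(u, v), ⟨hu, hv, hp⟩, ?_⟩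
    rintro ⟨u', v'⟩ ⟨hu', hv', hp'⟩
    have := fact_unique hJ hu' hv' hu hv (by rw [hp, hp'])
    exact Prod.ext this.1 this.2
  · rintro u v ⟨hu, hv, hp⟩
    rw [← hp]
    exact IsMin.length_mul hJ hu hv

/-- Every reduced word for `v` has the same letters. -/
theorem supp_eq {ω : List B} (hω : cs.IsReduced ω) :
    supp cs (cs.wordProd ω) = {s | ∃ i ∈ ω, cs.simple i = s} := by
  ext s
  constructor
  · rintro ⟨σ, hσ, hp, i, hi, rfl⟩
    have h := letter_br hσ hi
    rw [hp] at h
    exact letter_of_br h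
  · rintro ⟨i, hi, rfl⟩
    exact ⟨ω, hω, rfl, i, hi, rfl⟩

variable {cs}

/-- For `J ∈ BP(w)`, elements of `W_J` below `w` are below `w_J`. -/
theorem bp_max {J : Set W} (hJ : J ⊆ Set.range cs.simple) {u v x : W}
    (hbp : supp cs u ∩ J ⊆ leftDesc cs v)
    (hx : x ∈ Subgroup.closure J) (h : Br cs x (u * v)) : Br cs x v := by
  obtain ⟨ω₁, r₁, rfl⟩ := exists_reduced (cs := cs) u
  obtain ⟨ω₂, r₂, rfl⟩ := exists_reduced (cs := cs) v
  rw [← cs.wordProd_append] at h
  obtain ⟨σ, hσ, hp⟩ := h.exists_sublist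
  obtain ⟨τ, hτ, hr, hp₂⟩ := exists_reduced_sublist (cs := cs) σ
  rw [hp] at hp₂
  have hl := letters_mem hJ hr (by rw [hp₂]; exact hx)
  obtain ⟨l₁, l₂, rfl, h₁, h₂⟩ := List.sublist_append_iff.1 (hτ.trans hσ)
  rw [← hp₂, cs.wordProd_append]
  have base : Br cs (cs.wordProd l₂) (cs.wordProd ω₂) := br_of_sublist r₂ h₂
  have key : ∀ l : List B, (∀ i ∈ l, i ∈ ω₁ ∧ cs.simple i ∈ J) →
      Br cs (cs.wordProd l * cs.wordProd l₂) (cs.wordProd ω₂) := by
    intro l
    induction l with
    | nil => intro _; simpa using base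
    | cons i l ih =>
      intro hl
      have hi := hl i (by simp)
      have h3 := ih (fun j hj => hl j (by simp [hj]))
      rw [cs.wordProd_cons, mul_assoc]
      exact h3.simple_mul_of_gt (hbp ⟨⟨ω₁, r₁, rfl, i, hi.1, rfl⟩, hi.2⟩).2
  exact key l₁ (fun i hi => ⟨h₁.subset hi, hl i (by simp [hi])⟩)

/-- If `s ∈ supp(c)` and `ℓ(cz) = ℓ(c) + ℓ(z)` then `sz ≤ cz`. -/
theorem supp_mul_br {c z s : W} (hs : s ∈ supp cs c)
    (h : cs.length (c * z) = cs.length c + cs.length z) : Br cs (s * z) (c * z) := by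
  obtain ⟨ω, r, rfl, i, hi, rfl⟩ := hs
  obtain ⟨σ, rσ, rfl⟩ := exists_reduced (cs := cs) z
  have h1 := br_of_sublist (isReduced_append r rσ h)
    ((List.singleton_sublist.2 hi).append (List.Sublist.refl σ))
  rw [cs.wordProd_append, cs.wordProd_append] at h1
  simpa using h1

theorem closure_mono' {J K : Set W} (h : J ⊆ K) {x : W} (hx : x ∈ Subgroup.closure J) :
    x ∈ Subgroup.closure K := Subgroup.closure_mono h hx

theorem inter {w : W} {J K : Set W} (hJ : IsBP cs w J) (hK : IsBP cs w K) :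
    IsBP cs w (J ∩ K) := by
  obtain ⟨hJS, a, vJ, ⟨ha, hvJ, hwJ⟩, bJ⟩ := hJ
  obtain ⟨hKS, b, vK, ⟨hb, hvK, hwK⟩, bK⟩ := hK
  have ha : IsMin cs J a := ha
  have hb : IsMin cs K b := hb
  have hLS : J ∩ K ⊆ Set.range cs.simple := fun x hx => hJS hx.1
  obtain ⟨p, x, hp, hx, hpx⟩ := exists_fact (cs := cs) hLS vJ
  have hxJ : x ∈ Subgroup.closure J := closure_mono' Set.inter_subset_left hx
  have hpJ : p ∈ Subgroup.closure J := by
    have : p = vJ * x⁻¹ := by rw [← hpx]; simp
    rw [this]; exact Subgroup.mul_mem _ hvJ (Subgroup.inv_mem _ hxJ)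
  have hapL : IsMin cs (J ∩ K) (a * p) := by
    intro s hs
    have h1 : p * s ∈ Subgroup.closure J :=
      Subgroup.mul_mem _ hpJ (Subgroup.subset_closure hs.1)
    rw [mul_assoc, ha.length_mul hJS h1, ha.length_mul hJS hpJ]
    have := hp s hs
    omega
  have hw : a * p * x = w := by rw [mul_assoc, hpx, hwJ]
  refine ⟨hLS, a * p, x, ⟨hapL, hx, hw⟩, ?_⟩
  rintro s ⟨hs, hsL⟩
  obtain ⟨i, rfl⟩ := hLS hsL
  refine ⟨⟨i, rfl⟩, ?_⟩
  by_contra hlt
  have hne := cs.length_simple_mul x i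
  have hgt : cs.length (cs.simple i * x) = cs.length x + 1 := by omega
  have hyL : cs.simple i * x ∈ Subgroup.closure (J ∩ K) :=
    Subgroup.mul_mem _ (Subgroup.subset_closure hsL) hx
  have hyw : Br cs (cs.simple i * x) w := by
    rw [← hw]
    exact supp_mul_br hs (hapL.length_mul hLS hx)
  have hyK : Br cs (cs.simple i * x) vK :=
    bp_max hKS bK (closure_mono' Set.inter_subset_right hyL) (by rw [hwK]; exact hyw)
  have hpK : IsMin cs K p := by
    intro t ht
    obtain ⟨j, rfl⟩ := hKS ht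
    by_contra hlt'
    have h1 := cs.length_mul_simple p j
    have h2 : cs.length (p * cs.simple j) + 1 = cs.length p := by omega
    obtain ⟨ω, r, hω⟩ := exists_reduced (cs := cs) (p * cs.simple j)
    have h3 : cs.wordProd (ω ++ [j]) = p := by
      rw [cs.wordProd_append, hω]; simp
    have h4 : cs.IsReduced (ω ++ [j]) := by
      unfold CoxeterSystem.IsReduced
      rw [h3, List.length_append, List.length_singleton, ← r.eq, hω]
      exact h2.symm
    have h5 : cs.simple j ∈ J := letters_mem hJS h4 (by rw [h3]; exact hpJ) j (by simp)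
    have h6 := hp _ ⟨h5, ht⟩
    omega
  have hpw : Br cs p w := by
    rw [← hw]
    have h1 : Br cs (1 * p) (a * p) :=
      (br_one a).mul (Br.refl p) (ha.length_mul hJS hpJ)
    have h2 : Br cs (1 * p * 1) (a * p * x) :=
      h1.mul (br_one x) (hapL.length_mul hLS hx)
    simpa using h2
  have hpb : Br cs p b := hpK.br_of_br hKS hb hvK (by rw [hwK]; exact hpw)
  have hpy : Br cs (p * (cs.simple i * x)) w := by
    rw [← hwK]
    exact hpb.mul hyK (hb.length_mul hKS hvK)
  have hpyJ : p * (cs.simple i * x) ∈ Subgroup.closure J :=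
    Subgroup.mul_mem _ hpJ (closure_mono' Set.inter_subset_left hyL)
  have hfin := (bp_max hJS bJ hpyJ (by rw [hwJ]; exact hpy)).length_le
  rw [hp.length_mul hLS hyL, ← hpx, hp.length_mul hLS hx] at hfin
  omega

/-- The inductive step for the union. -/
theorem union_step {w : W} {X Mu : Set W} (hX : X ⊆ Mu) (hMS : Mu ⊆ Set.range cs.simple)
    {c : W} (hc : IsMin cs Mu c) {a vX : W} (ha : IsMin cs X a) (hvX : vX ∈ Subgroup.closure X)
    (hwX : a * vX = w) (bX : supp cs a ∩ X ⊆ leftDesc cs vX) {v : W}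
    (hv : v ∈ Subgroup.closure Mu) (hvw : Br cs v w) {s : W} (hs : s ∈ X)
    (hvs : cs.length (v * s) < cs.length v)
    (IH : ∀ v' ∈ Subgroup.closure Mu, cs.length v' < cs.length v → Br cs v' w →
      ∃ g ∈ Subgroup.closure Mu, Br cs v' g ∧ Br cs (c * g) w) :
    ∃ g ∈ Subgroup.closure Mu, Br cs v g ∧ Br cs (c * g) w := by
  have hXS : X ⊆ Set.range cs.simple := hX.trans hMS
  obtain ⟨v₁, v₂, hv₁, hv₂, hp⟩ := exists_fact (cs := cs) hXS v
  have hl := hv₁.length_mul hXS hv₂
  rw [hp] at hl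
  have hv₁M : v₁ ∈ Subgroup.closure Mu := by
    have : v₁ = v * v₂⁻¹ := by rw [← hp]; simp
    rw [this]; exact Subgroup.mul_mem _ hv (Subgroup.inv_mem _ (closure_mono' hX hv₂))
  have hpos : cs.length v₁ < cs.length v := by
    rcases Nat.eq_zero_or_pos (cs.length v₂) with h0 | h0
    · exfalso
      rw [cs.length_eq_zero_iff] at h0
      rw [h0, mul_one] at hp
      have := hv₁ s hs
      rw [hp] at this
      omega
    · omega
  have hv₁v : Br cs v₁ v := by
    have h1 : Br cs (v₁ * 1) (v₁ * v₂) :=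
      (Br.refl v₁).mul (br_one v₂) (hv₁.length_mul hXS hv₂)
    rw [hp, mul_one] at h1
    exact h1
  have hv₂v : Br cs v₂ v := by
    have h1 : Br cs (1 * v₂) (v₁ * v₂) :=
      (br_one v₁).mul (Br.refl v₂) (hv₁.length_mul hXS hv₂)
    rw [hp, one_mul] at h1
    exact h1
  obtain ⟨g, hg, hv₁g, hcg⟩ := IH v₁ hv₁M hpos (hv₁v.trans hvw)
  obtain ⟨g₁, g₂, hg₁, hg₂, hgp⟩ := exists_fact (cs := cs) hXS g
  have hg₁M : g₁ ∈ Subgroup.closure Mu := by
    have : g₁ = g * g₂⁻¹ := by rw [← hgp]; simp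
    rw [this]; exact Subgroup.mul_mem _ hg (Subgroup.inv_mem _ (closure_mono' hX hg₂))
  have hg₁g : Br cs g₁ g := by
    have h1 : Br cs (g₁ * 1) (g₁ * g₂) :=
      (Br.refl g₁).mul (br_one g₂) (hg₁.length_mul hXS hg₂)
    rw [hgp, mul_one] at h1
    exact h1
  have hv₁g₁ : Br cs v₁ g₁ := hv₁.br_of_br hXS hg₁ hg₂ (by rw [hgp]; exact hv₁g)
  have hv₂X : Br cs v₂ vX := bp_max hXS bX hv₂ (by rw [hwX]; exact hv₂v.trans hvw)
  refine ⟨g₁ * vX, Subgroup.mul_mem _ hg₁M (closure_mono' hX hvX), ?_, ?_⟩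
  · rw [← hp]
    exact hv₁g₁.mul hv₂X (hg₁.length_mul hXS hvX)
  · have hmin : IsMin cs X (c * g₁) := by
      intro t ht
      have h1 : g₁ * t ∈ Subgroup.closure Mu :=
        Subgroup.mul_mem _ hg₁M (Subgroup.subset_closure (hX ht))
      rw [mul_assoc, hc.length_mul hMS h1, hc.length_mul hMS hg₁M]
      have := hg₁ t ht
      omega
    have h2 : Br cs (c * g₁) w :=
      ((Br.refl c).mul hg₁g (hc.length_mul hMS hg)).trans hcg
    have h3 : Br cs (c * g₁) a := hmin.br_of_br hXS ha hvX (by rw [hwX]; exact h2)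
    rw [← mul_assoc, ← hwX]
    exact h3.mul (Br.refl vX) (ha.length_mul hXS hvX)

theorem union {w : W} {J K : Set W} (hJ : IsBP cs w J) (hK : IsBP cs w K) :
    IsBP cs w (J ∪ K) := by
  obtain ⟨hJS, a, vJ, ⟨ha, hvJ, hwJ⟩, bJ⟩ := hJ
  obtain ⟨hKS, b, vK, ⟨hb, hvK, hwK⟩, bK⟩ := hK
  have hMS : J ∪ K ⊆ Set.range cs.simple := Set.union_subset hJS hKS
  obtain ⟨c, z, hc, hz, hcz⟩ := exists_fact (cs := cs) hMS w
  refine ⟨hMS, c, z, ⟨hc, hz, hcz⟩, ?_⟩
  rintro s ⟨hs, hsM⟩
  obtain ⟨i, rfl⟩ := hMS hsM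
  refine ⟨⟨i, rfl⟩, ?_⟩
  by_contra hlt
  have hne := cs.length_simple_mul z i
  have hgt : cs.length (cs.simple i * z) = cs.length z + 1 := by omega
  have hyM : cs.simple i * z ∈ Subgroup.closure (J ∪ K) :=
    Subgroup.mul_mem _ (Subgroup.subset_closure hsM) hz
  have hyw : Br cs (cs.simple i * z) w := by
    rw [← hcz]
    exact supp_mul_br hs (hc.length_mul hMS hz)
  have claim : ∀ n : ℕ, ∀ v ∈ Subgroup.closure (J ∪ K), cs.length v = n → Br cs v w →
      ∃ g ∈ Subgroup.closure (J ∪ K), Br cs v g ∧ Br cs (c * g) w := by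
    intro n
    induction n using Nat.strong_induction_on with
    | _ n ihn =>
      intro v hv hn hvw
      obtain ⟨ω, r, hω⟩ := exists_reduced (cs := cs) v
      rcases List.eq_nil_or_concat ω with rfl | ⟨σ, j, rfl⟩
      · refine ⟨1, Subgroup.one_mem _, ?_, ?_⟩
        · rw [← hω]; simpa using Br.refl (cs := cs) (1 : W)
        · rw [← hcz]
          exact (Br.refl c).mul (br_one z) (hc.length_mul hMS hz)
      · rw [List.concat_eq_append] at r hω
        have hmem := letters_mem hMS r (by rw [hω]; exact hv)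
        have hj : cs.simple j ∈ J ∪ K := hmem j (by simp)
        have hvs : cs.length (v * cs.simple j) < cs.length v := by
          have h3 : v * cs.simple j = cs.wordProd σ := by
            rw [← hω, cs.wordProd_append]; simp
          have h4 := cs.length_wordProd_le σ
          have h5 := r.eq
          rw [hω, List.length_append, List.length_singleton] at h5
          rw [h3]
          omega
        have IH : ∀ v' ∈ Subgroup.closure (J ∪ K), cs.length v' < cs.length v → Br cs v' w →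
            ∃ g ∈ Subgroup.closure (J ∪ K), Br cs v' g ∧ Br cs (c * g) w := by
          intro v' hv' hl hw'
          exact ihn (cs.length v') (by omega) v' hv' rfl hw'
        rcases hj with hj | hj
        · exact union_step Set.subset_union_left hMS hc ha hvJ hwJ bJ hv hvw hj hvs IH
        · exact union_step Set.subset_union_right hMS hc hb hvK hwK bK hv hvw hj hvs IH
  obtain ⟨g, hg, hyg, hcg⟩ := claim _ _ hyM rfl hyw
  have h1 := hyg.length_le
  have h2 := hcg.length_le
  rw [hc.length_mul hMS hg, ← hcz, hc.length_mul hMS hz] at h2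
  omega

/-- For every Coxeter system, every `w` and all `J, K ∈ BP(w)`, both `J ∩ K` and `J ∪ K` lie in
`BP(w)`. -/
theorem result {B : Type u} {W : Type v} [Group W] {M : CoxeterMatrix B}
    (cs : CoxeterSystem M W) (w : W) (J K : Set W) (hJ : IsBP cs w J) (hK : IsBP cs w K) :
    IsBP cs w (J ∩ K) ∧ IsBP cs w (J ∪ K) :=
  ⟨inter hJ hK, union hJ hK⟩

end Pool.Agent.Results.MP_330ad9_al.BPLattice
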